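import Pool.Agent.PIt.Defs

/-!
# The dimension of the kernel of a system of linear equations, by elimination

The rows `i < C` of the matrix are the unknowns, the columns `j < R` the equations: the entry `M i j`
is the value of the equation `j` at the vector `i` of a list of vectors, of which those with
`al i = true` are alive. In the beginning the vectors are the standard basis; step `k` replaces the
vectors alive by a basis of the kernel of the equation `k`.
-/

set_option autoImplicit false

namespace Pool.Agent.PGs

open Pool.Agent.PT

variable {K : Type} [Field K]

/-- the state of the elimination -/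
structure GS (K : Type) where
  M : ℕ → ℕ → K
  al : ℕ → Bool

open Classical in
/-- one step of the elimination: the equation `k` -/
noncomputable def gstep (C k : ℕ) (s : GS K) : GS K :=
  if h : ∃ i, i < C ∧ s.al i = true ∧ s.M i k ≠ 0 then
    ⟨fun i j => if s.al i = true ∧ i ≠ Nat.find h then
        s.M i j - s.M i k * (s.M (Nat.find h) k)⁻¹ * s.M (Nat.find h) j else s.M i j,
      fun i => s.al i && decide (i ≠ Nat.find h)⟩
  else s

/-- the state after the equations `j < k` -/
noncomputable def grun (C : ℕ) (s : GS K) : ℕ → GS K
  | 0 => s
  | k + 1 => gstep C k (grun C s k)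

/-- the solutions of the equations `j < k` -/
def ker (C : ℕ) (a : ℕ → ℕ → K) (k : ℕ) : Submodule K (Fin C → K) where
  carrier := {y | ∀ j, j < k → ∑ i, y i * a i j = 0}
  add_mem' := by
    intro y z hy hz j hj
    simp only [Pi.add_apply, add_mul, Finset.sum_add_distrib, hy j hj, hz j hj, add_zero]
  zero_mem' := by
    intro j _
    simp
  smul_mem' := by
    intro c y hy j hj
    simp only [Pi.smul_apply, smul_eq_mul, mul_assoc]
    rw [← Finset.mul_sum, hy j hj, mul_zero]

/-- the letters: the entry; is the row alive; is the column done; is the row the first one; is the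
row one of the first `h` rows -/
abbrev Lt (K : Type) : Type := K × Bool × Bool × Bool × Bool

/-- the word of the state before step `k` -/
noncomputable def wenc (C R h : ℕ) (s : GS K) (k : ℕ) : List (Lt K) :=
  (List.range (C * R)).map fun q =>
    (s.M (q / R) (q % R), s.al (q / R), decide (q % R < k), decide (q / R = 0), decide (q / R < h))

/-- the number of letters in the first row -/
def nfirst (z : List (Lt K)) : ℕ := z.countP fun d => d.2.2.2.1

/-- the number of letters in the first row and in columns which are done -/
def ndone (z : List (Lt K)) : ℕ := z.countP fun d => d.2.2.2.1 && d.2.2.1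

/-- the letter at a position -/
def lt (z : List (Lt K)) (q : ℕ) : Lt K := z.getD q (0, false, false, false, false)

/-- is there no pivot in the rows `i' ≤ i` -/
def nopiv (z : List (Lt K)) (i : ℕ) : Prop :=
  ∀ i', i' < i + 1 → ¬ ((lt z (i' * nfirst z + ndone z)).2.1 = true ∧
    (lt z (i' * nfirst z + ndone z)).1 ≠ 0)

open Classical in
/-- the number of rows before the first pivot -/
noncomputable def piv (z : List (Lt K)) : ℕ :=
  ∑ i ∈ Finset.range z.length, if nopiv z i then 1 else 0

open Classical in
/-- the next letter -/
noncomputable def nlt (z : List (Lt K)) (q : ℕ) : Lt K :=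
  let R := nfirst z
  let k := ndone z
  let i := q / R
  let i0 := piv z
  let d := lt z q
  let e := lt z (i * R + k)
  let f := lt z (i0 * R + k)
  let g := lt z (i0 * R + q % R)
  (if i0 * R < z.length ∧ d.2.1 = true ∧ i ≠ i0 then d.1 - e.1 * (f.1)⁻¹ * g.1 else d.1,
    d.2.1 && decide (¬ (i0 * R < z.length ∧ i = i0)),
    d.2.2.1 || decide (q % R = k), d.2.2.2.1, d.2.2.2.2)

/-- the next word -/
noncomputable def nw (z : List (Lt K)) : List (Lt K) := (List.range z.length).map (nlt z)

/-- the number of rows alive equals the number of the first `h` rows (counted in all columns), and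
there is a letter -/
def fin (z : List (Lt K)) : Prop :=
  0 < z.length ∧ (z.countP fun d => d.2.1) = z.countP fun d => d.2.2.2.2

end Pool.Agent.PGs
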