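import Pool.Agent.PGs.InvA

/-! # The rows alive form a basis of the kernel -/

set_option autoImplicit false

namespace Pool.Agent.PGs

variable {K : Type} [Field K]

/-- the equation `j` as a functional -/
private def phi_Inv (C : ℕ) (a : ℕ → ℕ → K) (j : ℕ) : (Fin C → K) →ₗ[K] K where
  toFun y := ∑ i, y i * a i j
  map_add' y z := by
    simp only [Pi.add_apply, add_mul, Finset.sum_add_distrib]
  map_smul' c y := by
    simp only [Pi.smul_apply, smul_eq_mul, mul_assoc, RingHom.id_apply]
    rw [Finset.mul_sum]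

/-- the rows alive -/
private noncomputable def al_Inv (C : ℕ) (a : ℕ → ℕ → K) (k : ℕ) : Finset ℕ :=
  (Finset.range C).filter fun i => (grun C ⟨a, fun _ => true⟩ k).al i = true

private theorem mem_ker_Inv {C : ℕ} {a : ℕ → ℕ → K} {k : ℕ} {y : Fin C → K} :
    y ∈ ker C a k ↔ ∀ j, j < k → phi_Inv C a j y = 0 := Iff.rfl

private theorem ker_succ_Inv (C : ℕ) (a : ℕ → ℕ → K) (k : ℕ) :
    ker C a (k + 1) = ker C a k ⊓ LinearMap.ker (phi_Inv C a k) := by
  ext y
  rw [Submodule.mem_inf, LinearMap.mem_ker, mem_ker_Inv, mem_ker_Inv]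
  constructor
  · intro h
    exact ⟨fun j hj => h j (by omega), h k (by omega)⟩
  · rintro ⟨h1, h2⟩ j hj
    rcases Nat.lt_succ_iff_lt_or_eq.mp hj with h | h
    · exact h1 j h
    · rw [h]
      exact h2

private theorem zero_Inv (C : ℕ) (a : ℕ → ℕ → K) : ∃ b : ℕ → Fin C → K,
    (∀ i ∈ Finset.range C, ∀ j, phi_Inv C a j (b i) = a i j) ∧
    LinearIndependent K (fun i : (Finset.range C : Finset ℕ) => b i) ∧
    Submodule.span K (b '' (Finset.range C : Set ℕ)) = ⊤ := by
  classical
  refine ⟨fun i => if h : i < C then Pi.single (⟨i, h⟩ : Fin C) 1 else 0, ?_, ?_, ?_⟩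
  · intro i hi j
    have hi' : i < C := Finset.mem_range.mp hi
    simp only [dif_pos hi']
    show ∑ i', (Pi.single (⟨i, hi'⟩ : Fin C) (1 : K) : Fin C → K) i' * a i' j = a i j
    rw [Finset.sum_eq_single (⟨i, hi'⟩ : Fin C)]
    · simp
    · intro i' _ h
      rw [Pi.single_eq_of_ne h, zero_mul]
    · intro h
      exact absurd (Finset.mem_univ _) h
  · have h1 : LinearIndependent K (fun i : Fin C => (Pi.single i 1 : Fin C → K)) := by
      have h := (Pi.basisFun K (Fin C)).linearIndependent
      have e : (fun i : Fin C => (Pi.single i 1 : Fin C → K)) = ⇑(Pi.basisFun K (Fin C)) := by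
        funext i
        rw [Pi.basisFun_apply]
      rw [e]
      exact h
    have h2 := h1.comp (fun i : (Finset.range C : Finset ℕ) =>
      (⟨i.1, Finset.mem_range.mp i.2⟩ : Fin C)) (by
        intro x y h
        have := congrArg Fin.val h
        exact Subtype.ext this)
    convert h2 using 1
    funext i
    simp only [Function.comp_apply]
    rw [dif_pos (Finset.mem_range.mp i.2)]
  · rw [eq_top_iff, ← (Pi.basisFun K (Fin C)).span_eq]
    refine Submodule.span_mono ?_
    rintro _ ⟨i, rfl⟩
    refine ⟨i.1, ?_, ?_⟩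
    · simp
    · simp only [dif_pos i.2]
      rw [Pi.basisFun_apply]

private theorem inv_Inv (C : ℕ) (a : ℕ → ℕ → K) (k : ℕ) : ∃ b : ℕ → Fin C → K,
    (∀ i ∈ al_Inv C a k, ∀ j, phi_Inv C a j (b i) = (grun C ⟨a, fun _ => true⟩ k).M i j) ∧
    LinearIndependent K (fun i : (al_Inv C a k : Finset ℕ) => b i) ∧
    Submodule.span K (b '' (al_Inv C a k : Set ℕ)) = ker C a k := by
  classical
  induction k with
  | zero =>
    have h0 : al_Inv C a 0 = Finset.range C := by
      unfold al_Inv
      refine Finset.filter_true_of_mem fun i _ => rfl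
    rw [h0]
    obtain ⟨b, h1, h2, h3⟩ := zero_Inv C a
    refine ⟨b, h1, h2, ?_⟩
    rw [h3]
    ext y
    rw [mem_ker_Inv]
    exact ⟨fun _ j hj => absurd hj (Nat.not_lt_zero j), fun _ => Submodule.mem_top⟩
  | succ k ih =>
    obtain ⟨b, h1, h2, h3⟩ := ih
    have hstep : grun C ⟨a, fun _ => true⟩ (k + 1) = gstep C k (grun C ⟨a, fun _ => true⟩ k) := rfl
    by_cases h : ∃ i, i < C ∧ (grun C ⟨a, fun _ => true⟩ k).al i = true ∧
        (grun C ⟨a, fun _ => true⟩ k).M i k ≠ 0
    · have hs : gstep C k (grun C ⟨a, fun _ => true⟩ k) =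
          ⟨fun i j => if (grun C ⟨a, fun _ => true⟩ k).al i = true ∧ i ≠ Nat.find h then
            (grun C ⟨a, fun _ => true⟩ k).M i j - (grun C ⟨a, fun _ => true⟩ k).M i k *
              ((grun C ⟨a, fun _ => true⟩ k).M (Nat.find h) k)⁻¹ *
              (grun C ⟨a, fun _ => true⟩ k).M (Nat.find h) j
            else (grun C ⟨a, fun _ => true⟩ k).M i j,
          fun i => (grun C ⟨a, fun _ => true⟩ k).al i && decide (i ≠ Nat.find h)⟩ := by
        unfold gstep
        rw [dif_pos h]
      obtain ⟨hi1, hi2, hi3⟩ := Nat.find_spec h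
      generalize Nat.find h = i0 at hs hi1 hi2 hi3
      have hi0 : i0 ∈ al_Inv C a k := by
        unfold al_Inv
        rw [Finset.mem_filter, Finset.mem_range]
        exact ⟨hi1, hi2⟩
      have hal : al_Inv C a (k + 1) = (al_Inv C a k).erase i0 := by
        ext i
        unfold al_Inv
        rw [Finset.mem_filter, Finset.mem_erase, Finset.mem_filter, hstep, hs]
        simp only [Bool.and_eq_true, decide_eq_true_eq]
        tauto
      have hφ : phi_Inv C a k (b i0) ≠ 0 := by
        rw [h1 i0 hi0 k]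
        exact hi3
      obtain ⟨h4, h5⟩ := basis_step (al_Inv C a k) b h2 (phi_Inv C a k) i0 hi0 hφ
      rw [hal]
      refine ⟨fun i => b i - (phi_Inv C a k (b i) * (phi_Inv C a k (b i0))⁻¹) • b i0, ?_, h4, ?_⟩
      · intro i hi j
        obtain ⟨hne, hi'⟩ := Finset.mem_erase.mp hi
        have hi'' : (grun C ⟨a, fun _ => true⟩ k).al i = true := (Finset.mem_filter.mp hi').2
        rw [map_sub, map_smul, smul_eq_mul, h1 i hi', h1 i0 hi0, h1 i hi', h1 i0 hi0, hstep, hs]
        simp only
        rw [if_pos ⟨hi'', hne⟩]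
      · rw [h5, h3, ker_succ_Inv]
    · have hs : gstep C k (grun C ⟨a, fun _ => true⟩ k) = grun C ⟨a, fun _ => true⟩ k := by
        unfold gstep
        rw [dif_neg h]
      have hal : al_Inv C a (k + 1) = al_Inv C a k := by
        unfold al_Inv
        rw [hstep, hs]
      rw [hal, hstep, hs, ker_succ_Inv]
      refine ⟨b, h1, h2, ?_⟩
      rw [h3, eq_comm, inf_eq_left, ← h3, Submodule.span_le]
      rintro _ ⟨i, hi, rfl⟩
      have hi' : i ∈ al_Inv C a k := hi
      rw [SetLike.mem_coe, LinearMap.mem_ker, h1 i hi' k]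
      by_contra hne
      obtain ⟨h5, h6⟩ := Finset.mem_filter.mp hi'
      exact h ⟨i, Finset.mem_range.mp h5, h6, hne⟩

/-- **The number of rows alive is the dimension of the kernel.** Induction on `k`: there are vectors
`b i` (`i < C` alive) with `∑ i', b i i' * a i' j = (grun C s k).M i j` for all `j` which form a basis of
`ker C a k`. Step: if no row alive has a nonzero entry in column `k`, all vectors of `ker C a k` solve
the equation `k`; otherwise `basis_step` with the functional `y ↦ ∑ i, y i * a i k`. -/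
theorem card_alive (C : ℕ) (a : ℕ → ℕ → K) (k : ℕ) :
    ((Finset.range C).filter fun i => (grun C ⟨a, fun _ => true⟩ k).al i = true).card =
      Module.finrank K (ker C a k) := by
  obtain ⟨b, _, h2, h3⟩ := inv_Inv C a k
  have h4 := finrank_span_eq_card h2
  have h5 : Set.range (fun i : (al_Inv C a k : Finset ℕ) => b i) =
      b '' (al_Inv C a k : Set ℕ) := by
    ext y
    constructor
    · rintro ⟨i, rfl⟩
      exact ⟨i.1, i.2, rfl⟩
    · rintro ⟨i, hi, rfl⟩
      exact ⟨⟨i, hi⟩, rfl⟩
  rw [h5, h3, Fintype.card_coe] at h4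
  rw [h4]
  rfl

end Pool.Agent.PGs
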