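import Pool.Agent.PGs.Defs

/-! # One step of the elimination -/

set_option autoImplicit false

namespace Pool.Agent.PGs

variable {K : Type} [Field K]

private theorem li_iff {V : Type} [AddCommGroup V] [Module K V] (s : Finset ℕ) (b : ℕ → V) :
    LinearIndependent K (fun i : s => b i) ↔
      ∀ f : ℕ → K, ∑ i ∈ s, f i • b i = 0 → ∀ i ∈ s, f i = 0 := by
  classical
  rw [Fintype.linearIndependent_iff]
  constructor
  · intro h f hf i hi
    exact h (fun j => f j) (by rw [← hf, ← Finset.sum_coe_sort s]) ⟨i, hi⟩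
  · intro h g hg i
    have h1 := h (fun j => if hj : j ∈ s then g ⟨j, hj⟩ else 0) (by
      rw [← Finset.sum_coe_sort s, ← hg]
      refine Finset.sum_congr rfl fun j _ => ?_
      simp) i i.2
    simpa using h1

/-- One step. Let `b i` (`i` alive) be a basis of a subspace `V`, `φ` a linear functional,
`i0` with `φ (b i0) ≠ 0`. Then the vectors `b i - (φ (b i) / φ (b i0)) • b i0`, `i ≠ i0` alive, form
a basis of the kernel of `φ` in `V`: a relation between them is a relation between the `b i`; for `y`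
in the kernel, `y = ∑ c i • b i` with `∑ c i * φ (b i) = 0`, so
`c i0 = - ∑ (i ≠ i0), c i * φ (b i) / φ (b i0)`. -/
theorem basis_step {V : Type} [AddCommGroup V] [Module K V] (s : Finset ℕ) (b : ℕ → V)
    (hb : LinearIndependent K (fun i : s => b i)) (φ : V →ₗ[K] K) (i0 : ℕ) (hi0 : i0 ∈ s)
    (h0 : φ (b i0) ≠ 0) :
    LinearIndependent K (fun i : (s.erase i0 : Finset ℕ) => b i - (φ (b i) * (φ (b i0))⁻¹) • b i0) ∧
    Submodule.span K ((fun i => b i - (φ (b i) * (φ (b i0))⁻¹) • b i0) '' (s.erase i0 : Finset ℕ)) =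
      Submodule.span K (b '' (s : Set ℕ)) ⊓ LinearMap.ker φ := by
  classical
  have hsum : ∀ f : ℕ → K, ∑ i ∈ s.erase i0, f i • (b i - (φ (b i) * (φ (b i0))⁻¹) • b i0) =
      ∑ i ∈ s.erase i0, f i • b i - (∑ i ∈ s.erase i0, f i * (φ (b i) * (φ (b i0))⁻¹)) • b i0 := by
    intro f
    rw [Finset.sum_smul, ← Finset.sum_sub_distrib]
    refine Finset.sum_congr rfl fun i _ => ?_
    rw [smul_sub, smul_smul]
  constructor
  · have hli := (li_iff s b).1 hb
    rw [li_iff (s.erase i0) (fun i => b i - (φ (b i) * (φ (b i0))⁻¹) • b i0)]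
    intro f hf i hi
    rw [hsum] at hf
    have h1 := hli (fun j => if j = i0 then
      - ∑ i ∈ s.erase i0, f i * (φ (b i) * (φ (b i0))⁻¹) else f j) (by
      rw [← Finset.add_sum_erase s _ hi0]
      simp only [if_true]
      rw [← hf, neg_smul, neg_add_eq_sub]
      congr 1
      refine Finset.sum_congr rfl fun j hj => ?_
      rw [if_neg (Finset.ne_of_mem_erase hj)]) i (Finset.mem_of_mem_erase hi)
    simpa [Finset.ne_of_mem_erase hi] using h1
  · apply le_antisymm
    · rw [Submodule.span_le]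
      rintro _ ⟨i, hi, rfl⟩
      have hi' : i ∈ s := Finset.mem_of_mem_erase (Finset.mem_coe.1 hi)
      refine ⟨?_, ?_⟩
      · exact Submodule.sub_mem _ (Submodule.subset_span ⟨i, hi', rfl⟩)
          (Submodule.smul_mem _ _ (Submodule.subset_span ⟨i0, hi0, rfl⟩))
      · simp only [SetLike.mem_coe, LinearMap.mem_ker, map_sub, map_smul, smul_eq_mul]
        rw [mul_assoc, inv_mul_cancel₀ h0, mul_one, sub_self]
    · rintro y ⟨hy1, hy2⟩
      obtain ⟨c, rfl⟩ := (Submodule.mem_span_image_finset_iff_exists_fun' K).1 hy1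
      rw [SetLike.mem_coe, LinearMap.mem_ker, map_sum, ← Finset.add_sum_erase s _ hi0] at hy2
      simp only [map_smul, smul_eq_mul] at hy2
      have hc : c i0 = - ∑ i ∈ s.erase i0, c i * (φ (b i) * (φ (b i0))⁻¹) := by
        have h2 : ∑ i ∈ s.erase i0, c i * (φ (b i) * (φ (b i0))⁻¹) =
            (∑ i ∈ s.erase i0, c i * φ (b i)) * (φ (b i0))⁻¹ := by
          rw [Finset.sum_mul]
          refine Finset.sum_congr rfl fun i _ => ?_
          rw [mul_assoc]
        rw [h2, eq_neg_of_add_eq_zero_right hy2, neg_mul, neg_neg, mul_assoc, mul_inv_cancel₀ h0,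
          mul_one]
      refine (Submodule.mem_span_image_finset_iff_exists_fun' K).2 ⟨c, ?_⟩
      rw [hsum, ← Finset.add_sum_erase s _ hi0, hc, neg_smul, neg_add_eq_sub]

end Pool.Agent.PGs
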