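import Pool.Agent.PGs.WordA

/-! # The steps on words -/

set_option autoImplicit false

namespace Pool.Agent.PGs

variable {K : Type} [Field K]

omit [Field K] in
theorem length_wenc (C R h : ℕ) (s : GS K) (k : ℕ) : (wenc C R h s k).length = C * R := by
  simp [wenc]

theorem lt_wenc_pos (C R h : ℕ) (s : GS K) (k i j : ℕ) (hi : i < C) (hj : j < R) :
    lt (wenc C R h s k) (i * R + j) = (s.M i j, s.al i, decide (j < k),
      decide (i = 0), decide (i < h)) := by
  have h1 : i * R + j < C * R := by
    calc i * R + j < i * R + R := by omega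
      _ = (i + 1) * R := by ring
      _ ≤ C * R := Nat.mul_le_mul_right _ hi
  rw [lt_wenc C R h s k _ h1]
  have hR : 0 < R := by omega
  have h2 : (i * R + j) / R = i := by
    rw [add_comm, Nat.add_mul_div_right _ _ hR, Nat.div_eq_of_lt hj, zero_add]
  have h3 : (i * R + j) % R = j := by
    rw [add_comm, Nat.add_mul_mod_self_right, Nat.mod_eq_of_lt hj]
  rw [h2, h3]

theorem lt_wenc_out (C R h : ℕ) (s : GS K) (k q : ℕ) (hq : C * R ≤ q) :
    lt (wenc C R h s k) q = (0, false, false, false, false) := by
  unfold lt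
  rw [List.getD_eq_default]
  rw [length_wenc]
  exact hq

/-- is the row a pivot -/
def isp (C k : ℕ) (s : GS K) (i : ℕ) : Prop := i < C ∧ s.al i = true ∧ s.M i k ≠ 0

theorem nopiv_iff (C R h : ℕ) (s : GS K) (k i : ℕ) (hC : 0 < C) (hk : k < R) :
    nopiv (wenc C R h s k) i ↔ ∀ i', i' ≤ i → ¬ isp C k s i' := by
  unfold nopiv
  rw [nfirst_wenc C R h s k hC (by omega), ndone_wenc C R h s k hC (by omega) hk.le]
  constructor
  · intro H i' hi' hp
    have := H i' (by omega)
    rw [lt_wenc_pos C R h s k i' k hp.1 hk] at this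
    exact this ⟨hp.2.1, hp.2.2⟩
  · intro H i' hi' hp
    by_cases hc : i' < C
    · rw [lt_wenc_pos C R h s k i' k hc hk] at hp
      exact H i' (by omega) ⟨hc, hp.1, hp.2⟩
    · rw [lt_wenc_out C R h s k] at hp
      · exact absurd hp.1 (by simp)
      · calc C * R ≤ i' * R := Nat.mul_le_mul_right _ (by omega)
          _ ≤ i' * R + k := by omega

open Classical in
theorem piv_some (C R h : ℕ) (s : GS K) (k : ℕ) (hC : 0 < C) (hk : k < R)
    (hp : ∃ i, i < C ∧ s.al i = true ∧ s.M i k ≠ 0) :
    piv (wenc C R h s k) = Nat.find hp := by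
  have hlt : Nat.find hp < C := (Nat.find_spec hp).1
  have hCR : C ≤ C * R := Nat.le_mul_of_pos_right _ (by omega)
  unfold piv
  rw [length_wenc, ← Finset.card_filter]
  have : (Finset.range (C * R)).filter (fun i => nopiv (wenc C R h s k) i) =
      Finset.range (Nat.find hp) := by
    ext i
    simp only [Finset.mem_filter, Finset.mem_range]
    rw [nopiv_iff C R h s k i hC hk]
    constructor
    · rintro ⟨-, h2⟩
      by_contra h3
      exact h2 (Nat.find hp) (by omega) (Nat.find_spec hp)
    · intro h2
      refine ⟨by omega, fun i' hi' hq => ?_⟩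
      have := Nat.find_min hp (m := i') (by omega)
      exact this hq
  rw [this, Finset.card_range]

open Classical in
theorem piv_none (C R h : ℕ) (s : GS K) (k : ℕ) (hC : 0 < C) (hk : k < R)
    (hp : ¬ ∃ i, i < C ∧ s.al i = true ∧ s.M i k ≠ 0) :
    piv (wenc C R h s k) = C * R := by
  unfold piv
  rw [length_wenc, ← Finset.card_filter]
  have : (Finset.range (C * R)).filter (fun i => nopiv (wenc C R h s k) i) =
      Finset.range (C * R) := by
    apply Finset.filter_true_of_mem
    intro i _
    rw [nopiv_iff C R h s k i hC hk]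
    intro i' _ hq
    exact hp ⟨i', hq⟩
  rw [this, Finset.card_range]

/-- With `lt_wenc`, `nfirst_wenc`, `ndone_wenc`: `nopiv z i` says that no row `i' ≤ i` (`i' < C`) is a
pivot; so `piv z` is the first pivot, or `C * R` if there is none (`piv z * R < z.length` iff there is a
pivot). The entries agree letter by letter. -/
theorem nw_wenc (C R h : ℕ) (s : GS K) (k : ℕ) (hC : 0 < C) (hk : k < R) :
    nw (wenc C R h s k) = wenc C R h (gstep C k s) (k + 1) := by
  classical
  have hR : 0 < R := by omega
  unfold nw
  rw [length_wenc]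
  conv_rhs => unfold wenc
  apply List.map_congr_left
  intro q hq
  rw [List.mem_range] at hq
  have hi : q / R < C := by
    rw [Nat.div_lt_iff_lt_mul hR]
    exact hq
  have hj : q % R < R := Nat.mod_lt _ hR
  have hdec : (decide (q % R < k) || decide (q % R = k)) = decide (q % R < k + 1) := by
    rw [← Bool.decide_or]
    apply decide_eq_decide.2
    omega
  unfold nlt
  simp only []
  rw [nfirst_wenc C R h s k hC hR, ndone_wenc C R h s k hC hR hk.le, length_wenc,
    lt_wenc_pos C R h s k _ _ hi hk, lt_wenc C R h s k q hq]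
  by_cases hp : ∃ i, i < C ∧ s.al i = true ∧ s.M i k ≠ 0
  · have hlt : Nat.find hp < C := (Nat.find_spec hp).1
    have hlt2 : Nat.find hp * R < C * R := Nat.mul_lt_mul_of_pos_right hlt hR
    rw [piv_some C R h s k hC hk hp, lt_wenc_pos C R h s k _ _ hlt hk,
      lt_wenc_pos C R h s k _ _ hlt hj]
    simp only [hdec]
    unfold gstep
    rw [dif_pos hp]
    simp only [hlt2, true_and, decide_not]
  · rw [piv_none C R h s k hC hk hp]
    have hlt2 : ¬ (C * R * R < C * R) := by
      have : C * R * 1 ≤ C * R * R := Nat.mul_le_mul_left _ hR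
      omega
    simp only [hdec]
    unfold gstep
    rw [dif_neg hp]
    simp only [hlt2, false_and, if_false, not_false_eq_true, decide_true, Bool.and_true]

/-- From `nw_wenc`, by induction on `k`. -/
theorem nw_iterate (C R h : ℕ) (s : GS K) (hC : 0 < C) (k : ℕ) (hk : k ≤ R) :
    nw^[k] (wenc C R h s 0) = wenc C R h (grun C s k) k := by
  induction k with
  | zero => rfl
  | succ k ih =>
    rw [Function.iterate_succ_apply', ih (by omega), nw_wenc C R h _ k hC (by omega)]
    rfl

end Pool.Agent.PGs
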