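import Pool.Agent.PGs.Defs

/-! # The last test -/

set_option autoImplicit false

namespace Pool.Agent.PGs

variable {K : Type} [Field K]

/-- every row is counted once in every column -/
private theorem count_WordF (R : ℕ) (hR : 0 < R) (P : ℕ → Bool) (C : ℕ) :
    (List.range (C * R)).countP (fun q => P (q / R)) =
      R * ((Finset.range C).filter fun i => P i = true).card := by
  induction C with
  | zero => simp
  | succ C ih =>
    have e : (List.range R).countP ((fun q => P (q / R)) ∘ fun x => C * R + x) =
        (List.range R).countP fun _ => P C := by
      refine List.countP_congr fun x hx => ?_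
      have hx' : x < R := List.mem_range.1 hx
      have h1 : (C * R + x) / R = C := by
        rw [mul_comm, Nat.mul_add_div hR, Nat.div_eq_of_lt hx', add_zero]
      simp only [Function.comp, h1]
    have h2 : ((List.range R).countP fun _ => P C) = if P C = true then R else 0 := by
      cases hP : P C
      · simp
      · simp
    rw [Nat.add_one_mul, List.range_add, List.countP_append, ih, List.countP_map, e, h2,
      Finset.range_add_one, Finset.filter_insert]
    split_ifs with hP
    · rw [Finset.card_insert_of_notMem (by simp)]
      ring
    · rw [add_zero]

/-- Both counts are `R` times a number of rows; `h ≤ C`. -/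
theorem fin_wenc (C R h : ℕ) (s : GS K) (k : ℕ) (hC : 0 < C) (hR : 0 < R) (hh : h ≤ C) :
    fin (wenc C R h s k) ↔ ((Finset.range C).filter fun i => s.al i = true).card = h := by
  have h1 : (wenc C R h s k).length = C * R := by
    unfold wenc
    rw [List.length_map, List.length_range]
  have h2 : ((wenc C R h s k).countP fun d => d.2.1) =
      R * ((Finset.range C).filter fun i => s.al i = true).card := by
    unfold wenc
    rw [List.countP_map]
    exact count_WordF R hR s.al C
  have h3 : ((wenc C R h s k).countP fun d => d.2.2.2.2) = R * h := by
    unfold wenc
    rw [List.countP_map]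
    refine (count_WordF R hR (fun i => decide (i < h)) C).trans ?_
    congr 1
    have h4 : ((Finset.range C).filter fun i => decide (i < h) = true) = Finset.range h := by
      ext i
      simp only [Finset.mem_filter, Finset.mem_range, decide_eq_true_eq]
      omega
    rw [h4, Finset.card_range]
  unfold fin
  rw [h1, h2, h3]
  constructor
  · rintro ⟨-, h4⟩
    exact Nat.eq_of_mul_eq_mul_left hR h4
  · intro h4
    exact ⟨Nat.mul_pos hC hR, by rw [h4]⟩

end Pool.Agent.PGs
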