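import Pool.Agent.PGs.Defs
import Pool.Agent.Book19.Letter

/-! # The steps on words are denoted by terms -/

set_option autoImplicit false

namespace Pool.Agent.PGs

open Pool.Agent.PT Pool.Agent.Book19

variable {K : Type} [Field K] [Fintype K]

/-- `lt z (f z e) = d` iff the letter is `d`, or there is no letter and `d` is the default (`UP.sym`,
`UP.fex`). -/
theorem up_lt (d : Lt K) {f : List (Lt K) → (ℕ → ℕ) → ℕ} (hf : UF f) :
    UP fun z e => lt z (f z e) = d := by
  refine ((UP.sym d hf).or ((UP.le UF.len hf).and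
    (UP.const ((0, false, false, false, false) = d)))).congr fun z e => ?_
  unfold lt
  rw [List.getD_eq_getElem?_getD]
  rcases lt_or_ge (f z e) z.length with h | h
  · rw [List.getElem?_eq_getElem h]
    simp only [Option.some.injEq, Option.getD_some]
    constructor
    · rintro (h1 | h1)
      · exact h1
      · omega
    · exact Or.inl
  · rw [List.getElem?_eq_none h]
    simp [h]

/-- `up_lt` with `UP.fex` over the finitely many letters. -/
theorem up_lt' (P : Lt K → Prop) {f : List (Lt K) → (ℕ → ℕ) → ℕ} (hf : UF f) :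
    UP fun z e => P (lt z (f z e)) := by
  refine (UP.fex (fun d : Lt K => (up_lt d hf).and (UP.const (P d)))).congr fun z e => ?_
  constructor
  · rintro ⟨d, h1, h2⟩
    rw [h1]
    exact h2
  · exact fun h => ⟨_, rfl, h⟩

/-- `UF.countP`. -/
theorem uf_nfirst : UF fun (z : List (Lt K)) _ => nfirst z := by
  exact UF.countP _

theorem uf_ndone : UF fun (z : List (Lt K)) _ => ndone z := by
  exact UF.countP _

/-- `UP.ball`, `up_lt'`, `UF.sum`, `UF.ite`. -/
theorem uf_piv : UF fun (z : List (Lt K)) _ => piv z := by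
  classical
  have h1 : UP fun (z : List (Lt K)) e => nopiv z (e 0) := by
    refine UP.ball (b := fun z e => e 0 + 1) (P := fun z e i' =>
      ¬ ((lt z (i' * nfirst z + ndone z)).2.1 = true ∧ (lt z (i' * nfirst z + ndone z)).1 ≠ 0))
      ((UF.var 0).add (UF.const 1)) ?_
    exact up_lt' (fun d => ¬ (d.2.1 = true ∧ d.1 ≠ 0))
      (((UF.var 0).mul uf_nfirst).add uf_ndone)
  exact UF.sum (b := fun z _ => z.length) (f := fun z _ i => if nopiv z i then 1 else 0) UF.len
    (UF.ite h1 (UF.const 1) (UF.const 0))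

/-- The letter `q` of `nw z` is `d` iff `q < z.length` and there are values `d'`, `e`, `f`, `g` of the
four letters used in `nlt` (`UP.fex`, `up_lt`) for which the formula gives `d`; the three
conditions in the formula are denoted by terms. -/
theorem up_nw (d : Lt K) : UP fun (z : List (Lt K)) e => (nw z)[e 0]? = some d := by
  classical
  have hi : UF fun (z : List (Lt K)) e => e 0 / nfirst z := (UF.var 0).div uf_nfirst
  have hq : UF fun (z : List (Lt K)) e => e 0 % nfirst z := (UF.var 0).mod uf_nfirst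
  have key : UP fun (z : List (Lt K)) e => ∃ t : Lt K × Lt K × Lt K × Lt K × Bool × Bool × Bool,
      (lt z (e 0) = t.1 ∧ lt z (e 0 / nfirst z * nfirst z + ndone z) = t.2.1 ∧
      lt z (piv z * nfirst z + ndone z) = t.2.2.1 ∧
      lt z (piv z * nfirst z + e 0 % nfirst z) = t.2.2.2.1 ∧
      (piv z * nfirst z < z.length ↔ t.2.2.2.2.1 = true) ∧
      (e 0 / nfirst z = piv z ↔ t.2.2.2.2.2.1 = true) ∧
      (e 0 % nfirst z = ndone z ↔ t.2.2.2.2.2.2 = true)) ∧
      ((if t.2.2.2.2.1 = true ∧ t.1.2.1 = true ∧ ¬ t.2.2.2.2.2.1 = true then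
          t.1.1 - t.2.1.1 * (t.2.2.1.1)⁻¹ * t.2.2.2.1.1 else t.1.1,
        t.1.2.1 && decide (¬ (t.2.2.2.2.1 = true ∧ t.2.2.2.2.2.1 = true)),
        t.1.2.2.1 || decide (t.2.2.2.2.2.2 = true), t.1.2.2.2.1, t.1.2.2.2.2) : Lt K) = d := by
    refine UP.fex fun t => UP.and ?_ (UP.const _)
    exact (up_lt _ (UF.var 0)).and ((up_lt _ ((hi.mul uf_nfirst).add uf_ndone)).and
      ((up_lt _ ((uf_piv.mul uf_nfirst).add uf_ndone)).and
      ((up_lt _ ((uf_piv.mul uf_nfirst).add hq)).and
      (((UP.lt (uf_piv.mul uf_nfirst) UF.len).iff (UP.const _)).and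
      (((UP.eq hi uf_piv).iff (UP.const _)).and
      ((UP.eq hq uf_ndone).iff (UP.const _)))))))
  refine ((UP.lt (UF.var 0) UF.len).and key).congr fun z e => ?_
  have h0 : ((nw z)[e 0]? = some d) ↔ (e 0 < z.length ∧ nlt z (e 0) = d) := by
    unfold nw
    rw [List.getElem?_map]
    rcases lt_or_ge (e 0) z.length with h | h
    · rw [List.getElem?_range h]
      simp [h]
    · rw [List.getElem?_eq_none (by simpa using h)]
      simp [h]
  rw [h0]
  refine and_congr_right fun _ => ?_
  constructor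
  · rintro ⟨t, ⟨h1, h2, h3, h4, h5, h6, h7⟩, h8⟩
    rw [← h8]
    unfold nlt
    simp only [h1, h2, h3, h4, h5, h6, h7, Ne]
  · intro h
    refine ⟨(lt z (e 0), lt z (e 0 / nfirst z * nfirst z + ndone z),
      lt z (piv z * nfirst z + ndone z), lt z (piv z * nfirst z + e 0 % nfirst z),
      decide (piv z * nfirst z < z.length), decide (e 0 / nfirst z = piv z),
      decide (e 0 % nfirst z = ndone z)), ⟨rfl, rfl, rfl, rfl, ?_, ?_, ?_⟩, ?_⟩
    · simp
    · simp
    · simp
    · rw [← h]
      unfold nlt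
      simp only [decide_eq_true_eq, Ne]

/-- `UF.countP`. -/
theorem up_fin : UP fun (z : List (Lt K)) _ => fin z := by
  exact (UP.lt (UF.const 0) UF.len).and (UP.eq (UF.countP _) (UF.countP _))

end Pool.Agent.PGs
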