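import Pool.Agent.PGs.Inv
import Pool.Agent.PGs.Word
import Pool.Agent.PGs.WordF
import Pool.Agent.PGs.WordU
import Pool.Agent.PIt.Main

/-! # The dimension of the kernel is computable in polynomial time -/

set_option autoImplicit false

namespace Pool.Agent.PGs

open Pool.Agent.PT Pool.Agent.Book19 Pool.Agent.PIt

variable {Γ K : Type} [Field K] [Fintype K]

private theorem up_dec {P : List Γ → (ℕ → ℕ) → Prop} {inst : ∀ x e, Decidable (P x e)}
    (hP : UP P) (b : Bool) : UP fun x e => @decide (P x e) (inst x e) = b := by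
  cases b
  · exact hP.not.congr fun x e => by simp
  · exact hP.congr fun x e => by simp

/-- **The dimension of the kernel.** `inPoly_iter` with the first word
`Z x = wenc (C x) (R x) (h x) ⟨a x, fun _ => true⟩ 0` if `G x` and the empty word otherwise, `R x`
steps `nw` and the test `fin`; `nw_iterate`, `fin_wenc`, `card_alive`. -/
theorem inPoly_kernel [Fintype Γ] (L : Set (List Γ)) (C R h : List Γ → ℕ)
    (a : List Γ → ℕ → ℕ → K) (G : List Γ → Prop)
    (hC : UF fun x _ => C x) (hR : UF fun x _ => R x) (hh : UF fun x _ => h x)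
    (ha : ∀ v : K, UP fun x e => a x (e 0) (e 1) = v) (hG : UP fun x _ => G x)
    (hpos : ∀ x, G x → 0 < C x ∧ 0 < R x ∧ h x ≤ C x)
    (hL : ∀ x, x ∈ L ↔ G x ∧ Module.finrank K (ker (C x) (a x) (R x)) = h x) : InPoly L := by
  classical
  set Z : List Γ → List (Lt K) := fun x =>
    if G x then wenc (C x) (R x) (h x) ⟨a x, fun _ => true⟩ 0 else [] with hZdef
  have hlen : ∀ x, (Z x).length = if G x then C x * R x else 0 := by
    intro x
    simp only [hZdef]
    split_ifs <;> simp [wenc]
  have hZ : ∀ d : Lt K, UP fun x e => (Z x)[e 0]? = some d := by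
    intro d
    have q1 : UF fun x (e : ℕ → ℕ) => e 0 / R x := (UF.var 0).div hR
    have q2 : UF fun x (e : ℕ → ℕ) => e 0 % R x := (UF.var 0).mod hR
    have h1 : UP fun x (e : ℕ → ℕ) => a x (e 0 / R x) (e 0 % R x) = d.1 :=
      (UF.subst (ha d.1) (fun i x e => if i = 0 then e 0 / R x else e 0 % R x) (by
        intro i
        by_cases hi : i = 0
        · simpa only [hi, if_true] using q1
        · simpa only [hi, if_false] using q2)).congr fun x e => by simp
    have h2 : UP fun x (e : ℕ → ℕ) => decide (e 0 / R x = 0) = d.2.2.2.1 :=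
      up_dec (UP.eq q1 (UF.const 0)) _
    have h3 : UP fun x (e : ℕ → ℕ) => decide (e 0 / R x < h x) = d.2.2.2.2 :=
      up_dec (UP.lt q1 hh) _
    refine (((hG.and (UP.lt (UF.var 0) (hC.mul hR))).and (h1.and (h2.and h3))).and
      (UP.const (d.2.1 = true ∧ d.2.2.1 = false))).congr fun x e => ?_
    simp only [hZdef]
    by_cases hx : G x
    · rw [if_pos hx]
      by_cases h4 : e 0 < C x * R x
      · rw [wenc, List.getElem?_map, List.getElem?_range h4, Option.map_some, Option.some_inj]
        obtain ⟨d1, d2, d3, d4, d5⟩ := d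
        simp only [Prod.mk.injEq, hx, h4, true_and, Nat.not_lt_zero, decide_false]
        constructor
        · rintro ⟨⟨e1, e2, e3⟩, e4, e5⟩
          exact ⟨e1, e4.symm, e5.symm, e2, e3⟩
        · rintro ⟨e1, e4, e5, e2, e3⟩
          exact ⟨⟨e1, e2, e3⟩, e4.symm, e5.symm⟩
      · rw [List.getElem?_eq_none (by simpa [wenc] using not_lt.1 h4)]
        simp [h4]
    · rw [if_neg hx]
      simp [hx]
  refine inPoly_iter L R (fun x => if G x then C x * R x else 0) hR
    (UF.ite hG (hC.mul hR) (UF.const 0)) Z hlen hZ nw length_nw up_nw fin up_fin fun x => ?_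
  by_cases hx : G x
  · obtain ⟨c0, r0, h0⟩ := hpos x hx
    rw [hL x, show Z x = wenc (C x) (R x) (h x) ⟨a x, fun _ => true⟩ 0 from if_pos hx,
      nw_iterate (C x) (R x) (h x) _ c0 (R x) le_rfl, fin_wenc (C x) (R x) (h x) _ _ c0 r0 h0,
      card_alive]
    simp [hx]
  · rw [hL x]
    have h5 : ∀ k : ℕ, (nw (K := K))^[k] [] = [] := by
      intro k
      induction k with
      | zero => rfl
      | succ k ih =>
        rw [Function.iterate_succ_apply', ih]
        exact List.length_eq_zero_iff.1 (length_nw _)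
    rw [show Z x = [] from if_neg hx, h5]
    simp [hx, fin]

end Pool.Agent.PGs
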