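import Pool.Agent.PGs.Defs

/-! # The words: letters and counts -/

set_option autoImplicit false

namespace Pool.Agent.PGs

variable {K : Type} [Field K]

theorem length_nw (z : List (Lt K)) : (nw z).length = z.length := by
  simp [nw]

/-- a predicate that holds exactly on the first numbers -/
private theorem countP_first_WordA (a b : ℕ) (f : ℕ → Bool) (h1 : ∀ q, q < a → f q = true)
    (h2 : ∀ q, a ≤ q → q < a + b → f q = false) : (List.range (a + b)).countP f = a := by
  rw [List.range_add, List.countP_append, List.countP_map]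
  have e1 : (List.range a).countP f = a := by
    rw [List.countP_eq_length.2 fun q hq => h1 q (List.mem_range.1 hq), List.length_range]
  have e2 : (List.range b).countP (f ∘ fun x => a + x) = 0 := by
    rw [List.countP_eq_zero]
    intro q hq
    have hq' := List.mem_range.1 hq
    simp [h2 (a + q) (by omega) (by omega)]
  rw [e1, e2, add_zero]

theorem lt_wenc (C R h : ℕ) (s : GS K) (k q : ℕ) (hq : q < C * R) :
    lt (wenc C R h s k) q = (s.M (q / R) (q % R), s.al (q / R), decide (q % R < k),
      decide (q / R = 0), decide (q / R < h)) := by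
  unfold lt wenc
  rw [List.getD_eq_getElem _ _ (by simpa using hq), List.getElem_map, List.getElem_range]

theorem nfirst_wenc (C R h : ℕ) (s : GS K) (k : ℕ) (hC : 0 < C) (hR : 0 < R) :
    nfirst (wenc C R h s k) = R := by
  obtain ⟨c, rfl⟩ : ∃ c, C = c + 1 := ⟨C - 1, by omega⟩
  have hCR : (c + 1) * R = R + c * R := by ring
  unfold nfirst wenc
  rw [List.countP_map, hCR]
  refine countP_first_WordA R (c * R) _ (fun q hq => ?_) fun q hq _ => ?_
  · simp [hq]
  · have h1 : 0 < q / R := Nat.div_pos hq hR
    have h2 : ¬ q / R = 0 := by omega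
    simp only [Function.comp_apply, h2, decide_false]

theorem ndone_wenc (C R h : ℕ) (s : GS K) (k : ℕ) (hC : 0 < C) (hR : 0 < R) (hk : k ≤ R) :
    ndone (wenc C R h s k) = k := by
  obtain ⟨c, rfl⟩ : ∃ c, C = c + 1 := ⟨C - 1, by omega⟩
  obtain ⟨r, rfl⟩ : ∃ r, R = k + r := ⟨R - k, by omega⟩
  have hCR : (c + 1) * (k + r) = k + (r + c * (k + r)) := by ring
  unfold ndone wenc
  rw [List.countP_map, hCR]
  refine countP_first_WordA k (r + c * (k + r)) _ (fun q hq => ?_) fun q hq _ => ?_
  · have h1 : q < k + r := by omega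
    simp [Nat.mod_eq_of_lt h1, hq, h1]
  · rcases lt_or_ge q (k + r) with h1 | h1
    · have h2 : ¬ q < k := by omega
      simp [Nat.mod_eq_of_lt h1, h2]
    · have h3 : 0 < q / (k + r) := Nat.div_pos h1 hR
      have h4 : ¬ q / (k + r) = 0 := by omega
      simp only [Function.comp_apply, h4, decide_false, Bool.false_and]

end Pool.Agent.PGs
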